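import Mathlib

set_option autoImplicit false
set_option linter.unusedSectionVars false

/-! Finite conditions, dense sets of conditions, and the recursive construction. -/

namespace Pool.Agent.W_MP_c26d8e_gt

open Set

variable {I : Type}

/-- finite (possibly inconsistent) condition on a function `I → ℕ` -/
abbrev Cond (I : Type) := Finset (I × ℕ)

def Sat (y : I → ℕ) (p : Cond I) : Prop := ∀ q ∈ p, y q.1 = q.2

def SatT {m : ℕ} (y : Fin m → I → ℕ) (p : Fin m → Cond I) : Prop := ∀ i, Sat (y i) (p i)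

def Cons (p : Cond I) : Prop := ∃ y, Sat y p

def Compat (p q : Cond I) : Prop := ∃ y, Sat y p ∧ Sat y q

def CompatT {m : ℕ} (p q : Fin m → Cond I) : Prop := ∀ i, Compat (p i) (q i)

/-- a dense set of conditions -/
def Dense1 (V : Set (Cond I)) : Prop := ∀ r, Cons r → ∃ v ∈ V, Compat r v

/-- a dense set of tuples of conditions -/
def DenseT {m : ℕ} (W : Set (Fin m → Cond I)) : Prop :=
  ∀ r : Fin m → Cond I, (∀ i, Cons (r i)) → ∃ w ∈ W, CompatT r w

def Meets {m : ℕ} (y : Fin m → I → ℕ) (W : Set (Fin m → Cond I)) : Prop := ∃ w ∈ W, SatT y w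

/-- section of a set of tuples of conditions -/
def sec {m : ℕ} (W : Set (Fin (m + 1) → Cond I)) (y : Fin m → I → ℕ) : Set (Cond I) :=
  {p | ∃ w ∈ W, SatT y (fun i => w i.castSucc) ∧ p = w (Fin.last m)}

/-- support of a set of conditions -/
def suppC {m : ℕ} (W : Set (Fin m → Cond I)) : Set I := {a | ∃ w ∈ W, ∃ i, ∃ q ∈ w i, q.1 = a}

lemma suppC_countable {m : ℕ} {W : Set (Fin m → Cond I)} (hW : W.Countable) :
    (suppC W).Countable := by
  have : suppC W = ⋃ w ∈ W, ⋃ i, (fun q : I × ℕ => q.1) '' (w i : Set (I × ℕ)) := by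
    ext a
    simp only [suppC, mem_ofPred_eq, mem_iUnion, mem_image, Finset.mem_coe, exists_prop]
  rw [this]
  exact hW.biUnion fun w _ => countable_iUnion fun i => (Finset.countable_toSet _).image _

/-- finite conditions supported on a countable set form a countable set -/
lemma countable_supported {A : Set I} (hA : A.Countable) :
    {p : Cond I | ∀ q ∈ p, q.1 ∈ A}.Countable := by
  have h1 : (A ×ˢ (univ : Set ℕ)).Countable := hA.prod countable_univ
  have h2 : {p : Set (I × ℕ) | p.Finite ∧ p ⊆ A ×ˢ (univ : Set ℕ)}.Countable :=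
    countable_ofPred_finite_subset h1
  refine (h2.preimage (f := fun p : Cond I => (p : Set (I × ℕ)))
    Finset.coe_injective).mono ?_
  intro p hp
  exact ⟨Finset.finite_toSet p, fun q hq => ⟨hp q hq, mem_univ _⟩⟩

lemma countable_supportedT {m : ℕ} {A : Set I} (hA : A.Countable) :
    {p : Fin m → Cond I | ∀ i, ∀ q ∈ p i, q.1 ∈ A}.Countable := by
  have : {p : Fin m → Cond I | ∀ i, ∀ q ∈ p i, q.1 ∈ A} =
      Set.pi univ (fun _ => {p : Cond I | ∀ q ∈ p, q.1 ∈ A}) := by
    ext p; simp [Set.mem_pi]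
  rw [this]
  exact Set.countable_univ_pi fun _ => countable_supported hA

/-! ### One step of the construction -/

section step

variable [LinearOrder I]

/-- Baire category: a function with prescribed values above `z` meeting countably many dense sets
of conditions supported on `Iic z`. -/
lemma exists_generic (z : I) (hz : (Iic z).Countable) (e : I → ℕ) (𝒱 : Set (Set (Cond I)))
    (h𝒱 : 𝒱.Countable) (hd : ∀ V ∈ 𝒱, Dense1 V)
    (hs : ∀ V ∈ 𝒱, ∀ v ∈ V, ∀ q ∈ v, q.1 ≤ z) :
    ∃ y : I → ℕ, (∀ a, z < a → y a = e a) ∧ ∀ V ∈ 𝒱, ∃ v ∈ V, Sat y v := by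
  classical
  have : Countable (Iic z) := hz.to_subtype
  let ext : (Iic z → ℕ) → (I → ℕ) := fun u a => if h : a ∈ Iic z then u ⟨a, h⟩ else e a
  have hext1 : ∀ (u : Iic z → ℕ) (a : I) (h : a ∈ Iic z), ext u a = u ⟨a, h⟩ :=
    fun u a h => dif_pos h
  have hext2 : ∀ (u : Iic z → ℕ) (a : I) (_ : a ∉ Iic z), ext u a = e a :=
    fun u a h => dif_neg h
  let O : Set (Cond I) → Set (Iic z → ℕ) := fun V => {u | ∃ v ∈ V, Sat (ext u) v}
  have hopen : ∀ V ∈ 𝒱, IsOpen (O V) := by
    intro V hV
    have : O V = ⋃ v ∈ V, {u | Sat (ext u) v} := by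
      ext u; simp [O]
    rw [this]
    refine isOpen_biUnion fun v hv => ?_
    have : {u | Sat (ext u) v} = ⋂ q ∈ v, {u | ext u q.1 = q.2} := by
      ext u; simp [Sat]
    rw [this]
    refine isOpen_biInter_finset fun q hq => ?_
    have hq' : q.1 ∈ Iic z := hs V hV v hv q hq
    have : {u | ext u q.1 = q.2} = (fun u : Iic z → ℕ => u ⟨q.1, hq'⟩) ⁻¹' {q.2} := by
      ext u
      simp only [mem_ofPred_eq, mem_preimage, mem_singleton_iff]
      rw [hext1 u q.1 hq']
    rw [this]
    exact (isOpen_discrete _).preimage (continuous_apply _)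
  have hdense : ∀ V ∈ 𝒱, Dense (O V) := by
    intro V hV
    rw [dense_iff_inter_open]
    rintro U hU ⟨u, hu⟩
    rw [isOpen_pi_iff] at hU
    obtain ⟨K, s, hs1, hs2⟩ := hU u hu
    let r : Cond I := K.image (fun a : Iic z => ((a : I), u a))
    have hr : Cons r := by
      refine ⟨ext u, ?_⟩
      intro q hq
      simp only [r, Finset.mem_image] at hq
      obtain ⟨a, ha, rfl⟩ := hq
      exact hext1 u a a.2
    obtain ⟨v, hv, y, hyr, hyv⟩ := hd V hV r hr
    refine ⟨fun a => y a, hs2 ?_, v, hv, ?_⟩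
    · intro a ha
      have : y a = u a := hyr ((a : I), u a) (by
        simp only [r, Finset.mem_image]; exact ⟨a, ha, rfl⟩)
      simp only [this]
      exact (hs1 a ha).2
    · intro q hq
      have hq' : q.1 ∈ Iic z := hs V hV v hv q hq
      exact (hext1 (fun a => y a) q.1 hq').trans (hyv q hq)
  have hne : (⋂ V ∈ 𝒱, O V).Nonempty := by
    have : Dense (⋂ V ∈ 𝒱, O V) := dense_biInter_of_isOpen hopen h𝒱 hdense
    exact this.nonempty
  obtain ⟨u, hu⟩ := hne
  refine ⟨ext u, ?_, ?_⟩
  · intro a ha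
    exact hext2 u a (not_le.2 ha)
  · intro V hV
    exact mem_iInter₂.1 hu V hV

end step

end Pool.Agent.W_MP_c26d8e_gt
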