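import Pool.Agent.W_MP_c26d8e_gt.Topology

set_option autoImplicit false
set_option linter.unusedSectionVars false

/-! Assembling the counterexample. -/

namespace Pool.Agent.W_MP_c26d8e_gt

open Set Cardinal

section final

variable {I : Type} [LinearOrder I] [WellFoundedLT I]

/-- No set of functions containing all coordinate functions is Lindelöf. -/
lemma not_isLindelof (hI : ∀ i : I, (Iic i).Countable) (hunc : ¬ (univ : Set I).Countable)
    {e : I → I → ℕ} (he : ∀ a, InjOn (e a) (Iic a)) {x : I → I → ℕ}
    (hx : ∀ z a, z < a → x z a = e a z) (Z : Set (XX x → ℝ))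
    (hZ : {f : XX x → ℝ | Continuous f} ⊆ Z) : ¬ IsLindelof Z := by
  intro hL
  -- the coordinate functions
  let f : I → (XX x → ℝ) := fun a z => (pt x z a : ℝ)
  have hfc : ∀ a, Continuous (f a) := by
    intro a
    have h1 : Continuous (pt x) := (isInducing_pt x).continuous
    have h2 : Continuous (fun z : XX x => pt x z a) := (continuous_apply a).comp h1
    exact (continuous_of_discreteTopology (f := fun n : ℕ => (n : ℝ))).comp h2
  -- every function has a neighbourhood containing only countably many coordinate functions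
  have hO : ∀ h : XX x → ℝ, ∃ O : Set (XX x → ℝ), IsOpen O ∧ h ∈ O ∧ {a | f a ∈ O}.Countable := by
    intro h
    -- two points at which `h` takes close values
    have hpair : ∃ ξ η : XX x, ξ ≠ η ∧ |h ξ - h η| < 1 / 4 := by
      by_contra hcon
      push Not at hcon
      apply hunc
      have hinj : Function.Injective (fun z : XX x => ⌊4 * h z⌋) := by
        intro a b hab
        by_contra hne
        have h1 := hcon a b hne
        simp only at hab
        have h2 := Int.floor_le (4 * h a)
        have h3 := Int.lt_floor_add_one (4 * h a)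
        have h4 := Int.floor_le (4 * h b)
        have h5 := Int.lt_floor_add_one (4 * h b)
        rw [hab] at h2 h3
        have h6 : |h a - h b| < 1 / 4 := by
          rw [abs_lt]; constructor <;> linarith
        linarith
      have : Countable (XX x) := hinj.countable
      have h7 : Countable I := this
      exact Set.countable_univ
    obtain ⟨ξ, η, hne, hclose⟩ := hpair
    refine ⟨{u | |u ξ - h ξ| < 1 / 4} ∩ {u | |u η - h η| < 1 / 4}, ?_, ?_, ?_⟩
    · apply IsOpen.inter
      · exact isOpen_lt (by fun_prop) continuous_const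
      · exact isOpen_lt (by fun_prop) continuous_const
    · constructor <;> simp
    · have hsub : {a | f a ∈ ({u | |u ξ - h ξ| < 1 / 4} ∩ {u | |u η - h η| < 1 / 4} :
          Set (XX x → ℝ))} ⊆ Iic (ξ : I) ∪ Iic (η : I) := by
        rintro a ⟨h1, h2⟩
        by_contra hcon
        simp only [mem_union, mem_Iic, not_or, not_le] at hcon
        obtain ⟨h3, h4⟩ := hcon
        have h5 : f a ξ = (e a ξ : ℝ) := by
          show ((x ξ a : ℕ) : ℝ) = _
          rw [hx ξ a h3]
        have h6 : f a η = (e a η : ℝ) := by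
          show ((x η a : ℕ) : ℝ) = _
          rw [hx η a h4]
        have h7 : e a ξ ≠ e a η := fun h8 => hne (he a h3.le h4.le h8)
        have h9 : (1 : ℝ) ≤ |(e a ξ : ℝ) - (e a η : ℝ)| := by
          have : (1 : ℤ) ≤ |(e a ξ : ℤ) - (e a η : ℤ)| := by
            apply Int.one_le_abs
            intro h10
            apply h7
            have := sub_eq_zero.1 h10
            exact_mod_cast this
          exact_mod_cast this
        simp only [mem_ofPred_eq] at h1 h2
        rw [h5] at h1
        rw [h6] at h2
        have h11 : |(e a ξ : ℝ) - (e a η : ℝ)| ≤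
            |(e a ξ : ℝ) - h ξ| + |h ξ - h η| + |(e a η : ℝ) - h η| := by
          have h12 : (e a ξ : ℝ) - (e a η : ℝ) =
              ((e a ξ : ℝ) - h ξ) + (h ξ - h η) - ((e a η : ℝ) - h η) := by ring
          rw [h12]
          refine (abs_sub _ _).trans ?_
          gcongr
          exact abs_add_le _ _
        linarith
      exact ((hI ξ).union (hI η)).mono hsub
  choose O hO1 hO2 hO3 using hO
  obtain ⟨T, hT1, hT2⟩ := hL.elim_countable_subcover O hO1 (fun h _ => mem_iUnion.2 ⟨h, hO2 h⟩)
  apply hunc
  refine (hT1.biUnion fun h _ => hO3 h).mono ?_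
  intro a _
  obtain ⟨h, hh, hah⟩ := mem_iUnion₂.1 (hT2 (hZ (hfc a)))
  exact mem_iUnion₂.2 ⟨h, hh, hah⟩

lemma exists_space (hI : ∀ i : I, (Iic i).Countable) (hunc : ¬ (univ : Set I).Countable)
    (code : I → ℕ → Finset (ℕ × (I × ℕ))) (hcode : Function.Surjective code) :
    ∃ (X : Type) (_ : TopologicalSpace X), T35Space X ∧
      (∀ n : ℕ, HereditarilyLindelofSpace (Fin n → X)) ∧
      ∀ Z : Set (X → ℝ), {f : X → ℝ | Continuous f} ⊆ Z → ¬ IsLindelof Z := by
  have h1 : ∀ a : I, ∃ f : I → ℕ, InjOn f (Iic a) := fun a =>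
    countable_iff_exists_injOn.1 (hI a)
  choose e he using h1
  obtain ⟨x, hx⟩ := exists_points hI e code
  have hinj : ∀ z w : I, x z = x w → z = w := by
    intro z w hzw
    obtain ⟨g, hg⟩ := exists_bound hI hunc ({z, w} : Set I) (Set.toFinite _).countable
    have h1 : x z g = e g z := (hx z).1 g (hg z (by simp))
    have h2 : x w g = e g w := (hx w).1 g (hg w (by simp))
    have h3 : x z g = x w g := congrFun hzw g
    rw [h1, h2] at h3
    exact he g (hg z (by simp)).le (hg w (by simp)).le h3
  refine ⟨XX x, inferInstance, ?_, hereditarilyLindelof hI hunc hcode hx, ?_⟩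
  · have hemb : Topology.IsEmbedding (pt x) := ⟨isInducing_pt x, fun z w hzw => hinj z w hzw⟩
    exact hemb.t35Space
  · exact fun Z hZ => not_isLindelof hI hunc he (fun z a h => (hx z).1 a h) Z hZ

end final

theorem main (ch : (𝔠 : Cardinal.{0}) = ℵ₁) :
    ∃ (X : Type) (_ : TopologicalSpace X), T35Space X ∧
      (∀ n : ℕ, HereditarilyLindelofSpace (Fin n → X)) ∧
      ∀ Z : Set (X → ℝ), {f : X → ℝ | Continuous f} ⊆ Z → ¬ IsLindelof Z := by
  let I : Type := (ℵ₁ : Cardinal.{0}).ord.ToType
  have hmk : #I = ℵ₁ := mk_ord_toType _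
  have hinf : Infinite I := by
    rw [infinite_iff, hmk]
    exact aleph0_le_aleph 1
  have hI : ∀ i : I, (Iic i).Countable := by
    intro i
    have h1 : (Iio i).Countable := by
      rw [← le_aleph0_iff_set_countable, ← lt_aleph_one_iff]
      exact lt_of_lt_of_eq (mk_Iio_lt i (by rw [hmk]; simp [I])) hmk
    have : Iic i = insert i (Iio i) := Iio_insert.symm
    rw [this]
    exact h1.insert i
  have hunc : ¬ (univ : Set I).Countable := by
    rw [← le_aleph0_iff_set_countable, ← lt_aleph_one_iff, mk_univ, hmk]
    exact lt_irrefl _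
  have hcode : ∃ code : I → (ℕ → Finset (ℕ × (I × ℕ))), Function.Surjective code := by
    have h1 : #(ℕ → Finset (ℕ × (I × ℕ))) ≤ #I := by
      have h2 : #(Finset (ℕ × (I × ℕ))) = ℵ₁ := by
        rw [mk_finset_of_infinite, mk_prod, mk_prod, hmk]
        simp only [lift_id, mk_nat]
        rw [mul_aleph0_eq (aleph0_le_aleph 1), aleph0_mul_eq (aleph0_le_aleph 1)]
      rw [← power_def, h2, mk_nat, ← ch, continuum_power_aleph0, hmk, ch]
    have hne : Nonempty (ℕ → Finset (ℕ × (I × ℕ))) := inferInstance
    obtain ⟨g⟩ : Nonempty ((ℕ → Finset (ℕ × (I × ℕ))) ↪ I) := h1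
    exact ⟨Function.invFun g, Function.invFun_surjective g.injective⟩
  obtain ⟨code, hcode⟩ := hcode
  exact exists_space hI hunc code hcode

end Pool.Agent.W_MP_c26d8e_gt
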