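import Pool.Agent.W_MP_c26d8e_gt.Conditions

set_option autoImplicit false
set_option linter.unusedSectionVars false

/-! The transfinite construction and its genericity. -/

namespace Pool.Agent.W_MP_c26d8e_gt

open Set

variable {I : Type} [LinearOrder I] [WellFoundedLT I]

/-- the tuple of conditions coded by a finite set -/
def slice {m : ℕ} (c : Finset (ℕ × (I × ℕ))) : Fin m → Cond I :=
  fun i => (c.filter (fun z => z.1 = (i : ℕ))).image Prod.snd

/-- the set of `m`-tuples of conditions coded by a sequence -/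
def coded (m : ℕ) (c : ℕ → Finset (ℕ × (I × ℕ))) : Set (Fin m → Cond I) :=
  range (fun j => slice (m := m) (c j))

lemma exists_coded {m : ℕ} (W : Set (Fin m → Cond I)) (hW : W.Countable) (hne : W.Nonempty) :
    ∃ c : ℕ → Finset (ℕ × (I × ℕ)), coded m c = W := by
  obtain ⟨f, rfl⟩ := hW.exists_eq_range hne
  refine ⟨fun j => Finset.univ.biUnion (fun i : Fin m => (f j i).image (fun q => (i.val, q))), ?_⟩
  unfold coded
  congr 1
  funext j i
  ext q
  simp only [slice, Finset.mem_image, Finset.mem_filter, Finset.mem_biUnion, Finset.mem_univ,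
    true_and]
  constructor
  · rintro ⟨z, ⟨⟨i', q', hq', rfl⟩, hz⟩, rfl⟩
    simp only at hz ⊢
    rwa [Fin.ext hz] at hq'
  · intro hq
    exact ⟨(i.val, q), ⟨⟨i, q, hq, rfl⟩, rfl⟩, rfl⟩

/-- The requirement on the `z`-th point given the previous ones. -/
def Req (e : I → I → ℕ) (code : I → ℕ → Finset (ℕ × (I × ℕ))) (z : I) (x : ∀ w, w < z → (I → ℕ))
    (y : I → ℕ) : Prop :=
  (∀ a, z < a → y a = e a z) ∧
  ∀ g, g < z → ∀ (m : ℕ) (t : Fin m → I) (ht : ∀ i, t i < z),
    Dense1 (sec (coded (m + 1) (code g)) (fun i => x (t i) (ht i))) →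
    (∀ v ∈ sec (coded (m + 1) (code g)) (fun i => x (t i) (ht i)), ∀ q ∈ v, q.1 ≤ z) →
    ∃ v ∈ sec (coded (m + 1) (code g)) (fun i => x (t i) (ht i)), Sat y v

lemma exists_req (hI : ∀ i : I, (Iic i).Countable) (e : I → I → ℕ)
    (code : I → ℕ → Finset (ℕ × (I × ℕ))) (z : I) (x : ∀ w, w < z → (I → ℕ)) :
    ∃ y, Req e code z x y := by
  have hIio : (Iio z).Countable := (hI z).mono Iio_subset_Iic_self
  have : Countable (Iio z) := hIio.to_subtype
  -- all relevant sets
  let F : (Iio z × Σ m : ℕ, (Fin m → Iio z)) → Set (Cond I) := fun s =>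
    sec (coded (s.2.1 + 1) (code s.1)) (fun i => x (s.2.2 i) (s.2.2 i).2)
  let 𝒱 : Set (Set (Cond I)) :=
    {V | V ∈ range F ∧ Dense1 V ∧ ∀ v ∈ V, ∀ q ∈ v, q.1 ≤ z}
  have h𝒱 : 𝒱.Countable := (countable_range F).mono fun V hV => hV.1
  obtain ⟨y, hy1, hy2⟩ := exists_generic z (hI z) (fun a => e a z) 𝒱 h𝒱 (fun V hV => hV.2.1)
    (fun V hV => hV.2.2)
  refine ⟨y, hy1, ?_⟩
  intro g hg m t ht hd hs
  exact hy2 _ ⟨⟨(⟨g, hg⟩, ⟨m, fun i => ⟨t i, ht i⟩⟩), rfl⟩, hd, hs⟩

/-- The points of the space. -/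
lemma exists_points (hI : ∀ i : I, (Iic i).Countable) (e : I → I → ℕ)
    (code : I → ℕ → Finset (ℕ × (I × ℕ))) :
    ∃ x : I → I → ℕ, ∀ z, Req e code z (fun w _ => x w) (x z) := by
  choose F hF using exists_req hI e code
  let x : I → I → ℕ := (wellFounded_lt (α := I)).fix (fun z f => F z f)
  refine ⟨x, fun z => ?_⟩
  have : x z = F z (fun w _ => x w) := (wellFounded_lt (α := I)).fix_eq (fun z f => F z f) z
  rw [this]
  exact hF z _

section generic

variable (hI : ∀ i : I, (Iic i).Countable) (hunc : ¬ (univ : Set I).Countable)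
include hI hunc

lemma exists_bound (S : Set I) (hS : S.Countable) : ∃ g, ∀ s ∈ S, s < g := by
  by_contra hcon
  push Not at hcon
  apply hunc
  have : (univ : Set I) ⊆ ⋃ s ∈ S, Iic s := by
    intro g _
    obtain ⟨s, hs, hgs⟩ := hcon g
    exact mem_iUnion₂.2 ⟨s, hs, hgs⟩
  exact (hS.biUnion fun s _ => hI s).mono this

variable {e : I → I → ℕ} {code : I → ℕ → Finset (ℕ × (I × ℕ))}
  (hcode : Function.Surjective code) {x : I → I → ℕ}
  (hx : ∀ z, Req e code z (fun w _ => x w) (x z))
include hcode hx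

/-- Tuples of points with large indices meet a given countable dense set of conditions. -/
lemma meets_dense (m : ℕ) : ∀ W : Set (Fin m → Cond I), W.Countable → DenseT W →
    ∃ g, ∀ t : Fin m → I, StrictMono t → (∀ i, g ≤ t i) → Meets (fun i => x (t i)) W := by
  classical
  induction m with
  | zero =>
    intro W _ hd
    obtain ⟨w, hw, _⟩ := hd (fun i => ∅) (fun i => i.elim0)
    obtain ⟨g, _⟩ := exists_bound hI hunc ∅ countable_empty
    exact ⟨g, fun t _ _ => ⟨w, hw, fun i => i.elim0⟩⟩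
  | succ m ih =>
    intro W hW hd
    have hcons0 : Cons (∅ : Cond I) := ⟨fun _ => 0, fun q hq => by simp at hq⟩
    have hne : W.Nonempty := by
      obtain ⟨w, hw, _⟩ := hd (fun i => ∅) (fun i => hcons0)
      exact ⟨w, hw⟩
    obtain ⟨c, hc⟩ := exists_coded W hW hne
    obtain ⟨γ, hγ⟩ := hcode c
    have hA : (suppC W).Countable := suppC_countable hW
    let P : Set (Cond I) := {p | (∀ q ∈ p, q.1 ∈ suppC W) ∧ Cons p}
    have hP : P.Countable := (countable_supported hA).mono fun p hp => hp.1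
    -- the projected dense sets
    have hproj : ∀ p ∈ P, ∃ g, ∀ t : Fin m → I, StrictMono t → (∀ i, g ≤ t i) →
        ∃ w ∈ W, Compat p (w (Fin.last m)) ∧ SatT (fun i => x (t i)) (fun i => w i.castSucc) := by
      intro p hp
      obtain ⟨g, hg⟩ := ih ((fun w : Fin (m + 1) → Cond I => fun i : Fin m => w i.castSucc) ''
          {w | w ∈ W ∧ Compat p (w (Fin.last m))})
        ((hW.mono fun w hw => hw.1).image _) (by
          intro r hr
          obtain ⟨w, hw, hrw⟩ := hd (Fin.snoc r p) (by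
            intro i
            refine Fin.lastCases ?_ ?_ i
            · rw [Fin.snoc_last]; exact hp.2
            · intro j; rw [Fin.snoc_castSucc]; exact hr j)
          refine ⟨_, ⟨w, ⟨hw, ?_⟩, rfl⟩, ?_⟩
          · have := hrw (Fin.last m)
            rwa [Fin.snoc_last] at this
          · intro i
            have := hrw i.castSucc
            rwa [Fin.snoc_castSucc] at this)
      refine ⟨g, fun t ht htg => ?_⟩
      obtain ⟨_, ⟨w, ⟨hw1, hw2⟩, rfl⟩, hw3⟩ := hg t ht htg
      exact ⟨w, hw1, hw2, hw3⟩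
    have : Nonempty I := ⟨γ⟩
    choose! G hG using hproj
    obtain ⟨g, hg⟩ := exists_bound hI hunc ((G '' P ∪ suppC W) ∪ {γ})
      (((hP.image G).union hA).union (countable_singleton γ))
    refine ⟨g, fun t ht htg => ?_⟩
    have hdense : Dense1 (sec W (fun i : Fin m => x (t i.castSucc))) := by
      intro r hr
      obtain ⟨yr, hyr⟩ := hr
      let p : Cond I := r.filter (fun q => q.1 ∈ suppC W)
      have hpP : p ∈ P := ⟨fun q hq => (Finset.mem_filter.1 hq).2,
        ⟨yr, fun q hq => hyr q (Finset.mem_filter.1 hq).1⟩⟩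
      obtain ⟨w, hw1, ⟨y, hy1, hy2⟩, hw3⟩ := hG p hpP (fun i => t i.castSucc)
        (fun i j hij => ht (Fin.castSucc_lt_castSucc_iff.2 hij))
        (fun i => (hg _ (Or.inl (Or.inl ⟨p, hpP, rfl⟩))).le.trans (htg _))
      refine ⟨w (Fin.last m), ⟨w, hw1, hw3, rfl⟩,
        fun a => if a ∈ suppC W then y a else yr a, ?_, ?_⟩
      · intro q hq
        by_cases hqA : q.1 ∈ suppC W
        · simp only [hqA, if_true]
          exact hy1 q (Finset.mem_filter.2 ⟨hq, hqA⟩)
        · simp only [hqA, if_false]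
          exact hyr q hq
      · intro q hq
        have hqA : q.1 ∈ suppC W := ⟨w, hw1, _, q, hq, rfl⟩
        simp only [hqA, if_true]
        exact hy2 q hq
    have hz := (hx (t (Fin.last m))).2 γ
      (lt_of_lt_of_le (hg γ (Or.inr rfl)) (htg _)) m (fun i => t i.castSucc)
      (fun i => ht (Fin.castSucc_lt_last i))
    rw [hγ, hc] at hz
    obtain ⟨v, ⟨w, hw1, hw2, rfl⟩, hv⟩ := hz hdense (by
      rintro v ⟨w, hw1, _, rfl⟩ q hq
      have hqA : q.1 ∈ suppC W := ⟨w, hw1, _, q, hq, rfl⟩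
      exact (hg _ (Or.inl (Or.inr hqA))).le.trans (htg _))
    refine ⟨w, hw1, ?_⟩
    intro i
    refine Fin.lastCases ?_ ?_ i
    · exact hv
    · intro j; exact hw2 j

/-- Tuples of points with large indices either meet a countable set `W` of conditions or satisfy a
condition with the same support incompatible with all members of `W`. -/
lemma meets_or (m : ℕ) (W : Set (Fin m → Cond I)) (hW : W.Countable) :
    ∃ g, ∀ t : Fin m → I, StrictMono t → (∀ i, g ≤ t i) →
      Meets (fun i => x (t i)) W ∨ ∃ r : Fin m → Cond I, (∀ i, ∀ q ∈ r i, q.1 ∈ suppC W) ∧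
        SatT (fun i => x (t i)) r ∧ ∀ w ∈ W, ¬ CompatT r w := by
  classical
  let W' : Set (Fin m → Cond I) :=
    {r | (∀ i, ∀ q ∈ r i, q.1 ∈ suppC W) ∧ ∀ w ∈ W, ¬ CompatT r w}
  have hA := suppC_countable hW
  have hW' : W'.Countable := (countable_supportedT hA).mono fun r hr => hr.1
  obtain ⟨g, hg⟩ := meets_dense hI hunc hcode hx m (W ∪ W') (hW.union hW') (by
    intro r hr
    let p : Fin m → Cond I := fun i => (r i).filter (fun q => q.1 ∈ suppC W)
    by_cases hcomp : ∃ w ∈ W, CompatT p w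
    · obtain ⟨w, hw, hpw⟩ := hcomp
      refine ⟨w, Or.inl hw, fun i => ?_⟩
      obtain ⟨y, hy1, hy2⟩ := hpw i
      obtain ⟨yr, hyr⟩ := hr i
      refine ⟨fun a => if a ∈ suppC W then y a else yr a, ?_, ?_⟩
      · intro q hq
        by_cases hqA : q.1 ∈ suppC W
        · simp only [hqA, if_true]
          exact hy1 q (Finset.mem_filter.2 ⟨hq, hqA⟩)
        · simp only [hqA, if_false]
          exact hyr q hq
      · intro q hq
        have hqA : q.1 ∈ suppC W := ⟨w, hw, i, q, hq, rfl⟩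
        simp only [hqA, if_true]
        exact hy2 q hq
    · push Not at hcomp
      refine ⟨p, Or.inr ⟨fun i q hq => (Finset.mem_filter.1 hq).2, hcomp⟩, fun i => ?_⟩
      obtain ⟨yr, hyr⟩ := hr i
      exact ⟨yr, hyr, fun q hq => hyr q (Finset.mem_filter.1 hq).1⟩)
  refine ⟨g, fun t ht htg => ?_⟩
  obtain ⟨w, hw | hw, hsat⟩ := hg t ht htg
  · exact Or.inl ⟨w, hw, hsat⟩
  · exact Or.inr ⟨w, hw.1, hsat, hw.2⟩

end generic

end Pool.Agent.W_MP_c26d8e_gt
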