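import Pool.Agent.W_MP_c26d8e_gt.Generic

set_option autoImplicit false
set_option linter.unusedSectionVars false

/-! The space and its finite powers. -/

namespace Pool.Agent.W_MP_c26d8e_gt

open Set

variable {I : Type} [LinearOrder I] [WellFoundedLT I]

/-- The space: the index set with the topology induced by `x : I → ℕ^I`. -/
def XX (_ : I → I → ℕ) : Type := I

instance (x : I → I → ℕ) : TopologicalSpace (XX x) :=
  TopologicalSpace.induced (fun i : I => x i) inferInstance

instance (x : I → I → ℕ) : LinearOrder (XX x) := inferInstanceAs (LinearOrder I)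

/-- the inclusion in `ℕ^I` -/
def pt (x : I → I → ℕ) : XX x → (I → ℕ) := x

lemma isInducing_pt (x : I → I → ℕ) : Topology.IsInducing (pt x) := ⟨rfl⟩

/-- basic neighbourhoods in a finite power -/
lemma exists_basic (x : I → I → ℕ) {m : ℕ} (U : Set (Fin m → XX x)) (hU : IsOpen U)
    (s : Fin m → XX x) (hs : s ∈ U) :
    ∃ F : Finset I, ∀ s' : Fin m → XX x, (∀ i, ∀ a ∈ F, pt x (s' i) a = pt x (s i) a) → s' ∈ U := by
  classical
  have hind : Topology.IsInducing (fun (s : Fin m → XX x) (i : Fin m) => pt x (s i)) :=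
    Topology.IsInducing.piMap (fun _ => isInducing_pt x)
  rw [hind.isOpen_iff] at hU
  obtain ⟨O, hO, rfl⟩ := hU
  rw [isOpen_pi_iff] at hO
  obtain ⟨K, u, hu1, hu2⟩ := hO _ hs
  have hF : ∀ i : Fin m, ∃ F : Finset I, i ∈ K → ∀ y : I → ℕ,
      (∀ a ∈ F, y a = pt x (s i) a) → y ∈ u i := by
    intro i
    by_cases hi : i ∈ K
    · obtain ⟨h1, h2⟩ := hu1 i hi
      rw [isOpen_pi_iff] at h1
      obtain ⟨F, v, hv1, hv2⟩ := h1 _ h2
      refine ⟨F, fun _ y hy => hv2 ?_⟩
      intro a ha
      rw [hy a ha]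
      exact (hv1 a ha).2
    · exact ⟨∅, fun h => absurd h hi⟩
  choose F hF using hF
  refine ⟨Finset.univ.biUnion F, fun s' hs' => hu2 ?_⟩
  intro i hi
  exact hF i hi _ (fun a ha => hs' i a (Finset.mem_biUnion.2 ⟨i, Finset.mem_univ _, ha⟩))

section main

variable (hI : ∀ i : I, (Iic i).Countable) (hunc : ¬ (univ : Set I).Countable)
variable {e : I → I → ℕ} {code : I → ℕ → Finset (ℕ × (I × ℕ))}
  (hcode : Function.Surjective code) {x : I → I → ℕ}
  (hx : ∀ z, Req e code z (fun w _ => x w) (x z))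

/-- closing off a countable set of indices -/
lemma exists_closed {S : Type} (R : S → Set I) (hR : ∀ s, (R s).Countable) (m : ℕ)
    (P : (Fin m → Cond I) → S → Prop) :
    ∃ D : Set S, D.Countable ∧ ∀ r : Fin m → Cond I, (∀ i, ∀ q ∈ r i, q.1 ∈ ⋃ s ∈ D, R s) →
      (∃ s, P r s) → ∃ s ∈ D, P r s := by
  classical
  by_cases hS : Nonempty S
  swap
  · exact ⟨∅, countable_empty, fun r _ ⟨s, _⟩ => absurd ⟨s⟩ hS⟩
  let pick : (Fin m → Cond I) → S := fun r => if h : ∃ s, P r s then h.choose else hS.some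
  have hpick : ∀ r, (∃ s, P r s) → P r (pick r) := by
    intro r h
    simp only [pick]
    rw [dif_pos h]
    exact h.choose_spec
  let next : Set S → Set S := fun D =>
    D ∪ pick '' {r | ∀ i, ∀ q ∈ r i, q.1 ∈ ⋃ s ∈ D, R s}
  have hnext : ∀ D, D.Countable → (next D).Countable := fun D hD =>
    hD.union ((countable_supportedT (hD.biUnion fun s _ => hR s)).image _)
  let D : ℕ → Set S := fun n => next^[n] ∅
  have hDc : ∀ n, (D n).Countable := by
    intro n
    induction n with
    | zero => exact countable_empty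
    | succ n ih =>
      have : D (n + 1) = next (D n) := Function.iterate_succ_apply' _ _ _
      rw [this]
      exact hnext _ ih
  have hDsucc : ∀ n, D (n + 1) = next (D n) := fun n => Function.iterate_succ_apply' _ _ _
  have hmono : Monotone D := by
    apply monotone_nat_of_le_succ
    intro n
    rw [hDsucc]
    exact subset_union_left
  refine ⟨⋃ n, D n, countable_iUnion hDc, fun r hr hex => ?_⟩
  -- all the supports of `r` lie in one stage
  have h1 : ∃ n, ∀ i, ∀ q ∈ r i, q.1 ∈ ⋃ s ∈ D n, R s := by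
    have h2 : ∀ i, ∃ n, ∀ q ∈ r i, q.1 ∈ ⋃ s ∈ D n, R s := by
      intro i
      have h3 : ∀ q : I × ℕ, ∃ n, q ∈ r i → q.1 ∈ ⋃ s ∈ D n, R s := by
        intro q
        by_cases hq : q ∈ r i
        · have := hr i q hq
          obtain ⟨s, hs, hqs⟩ := mem_iUnion₂.1 this
          obtain ⟨n, hn⟩ := mem_iUnion.1 hs
          exact ⟨n, fun _ => mem_iUnion₂.2 ⟨s, hn, hqs⟩⟩
        · exact ⟨0, fun h => absurd h hq⟩
      choose N hN using h3
      refine ⟨(r i).sup N, fun q hq => ?_⟩
      have h4 := hN q hq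
      obtain ⟨s, hs, hqs⟩ := mem_iUnion₂.1 h4
      exact mem_iUnion₂.2 ⟨s, hmono (Finset.le_sup hq) hs, hqs⟩
    choose N hN using h2
    refine ⟨Finset.univ.sup N, fun i q hq => ?_⟩
    obtain ⟨s, hs, hqs⟩ := mem_iUnion₂.1 (hN i q hq)
    exact mem_iUnion₂.2 ⟨s, hmono (Finset.le_sup (Finset.mem_univ i)) hs, hqs⟩
  obtain ⟨n, hn⟩ := h1
  refine ⟨pick r, mem_iUnion.2 ⟨n + 1, ?_⟩, hpick r hex⟩
  rw [hDsucc]
  exact Or.inr ⟨r, hn, rfl⟩

include hI hunc hcode hx

/-- Every set of strictly increasing tuples is Lindelöf. -/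
lemma isLindelof_strictMono (m : ℕ) : ∀ T : Set (Fin m → XX x), (∀ s ∈ T, StrictMono s) →
    IsLindelof T := by
  classical
  induction m with
  | zero =>
    intro T _
    exact (subsingleton_of_subsingleton : T.Subsingleton).isLindelof
  | succ m ih =>
    intro T hT
    apply isLindelof_of_countable_subcover
    intro ι U hU hcov
    have hcov' : ∀ s : T, ∃ i, ∃ F : Finset I, s.1 ∈ U i ∧ ∀ s' : Fin (m + 1) → XX x,
        (∀ k, ∀ a ∈ F, pt x (s' k) a = pt x (s.1 k) a) → s' ∈ U i := by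
      intro s
      obtain ⟨i, hi⟩ := mem_iUnion.1 (hcov s.2)
      obtain ⟨F, hF⟩ := exists_basic x (U i) (hU i) s.1 hi
      exact ⟨i, F, hi, hF⟩
    choose idx F hsU hF using hcov'
    obtain ⟨D, hD, hclosed⟩ := exists_closed (fun s : T => ((F s : Finset I) : Set I))
      (fun s => Finset.countable_toSet _) (m + 1) (fun r s => SatT (fun k => pt x (s.1 k)) r)
    -- the conditions given by `D`
    let cond : T → (Fin (m + 1) → Cond I) := fun s k =>
      (F s).image (fun a => (a, pt x (s.1 k) a))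
    have hcondsat : ∀ s : T, SatT (fun k => pt x (s.1 k)) (cond s) := by
      intro s k q hq
      simp only [cond, Finset.mem_image] at hq
      obtain ⟨a, _, rfl⟩ := hq
      rfl
    obtain ⟨g, hg⟩ := meets_or hI hunc hcode hx (m + 1) (cond '' D) (hD.image _)
    -- tuples with large entries are covered by the sets chosen for `D`
    have hlarge : ∀ s : T, (∀ k, g ≤ (s.1 k : I)) → ∃ d ∈ D, s.1 ∈ U (idx d) := by
      intro s hs
      rcases hg (fun k => (s.1 k : I)) (hT s.1 s.2) hs with ⟨w, ⟨d, hd, rfl⟩, hw⟩ | ⟨r, hr, hsat, hinc⟩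
      · refine ⟨d, hd, hF d s.1 fun k a ha => ?_⟩
        exact hw k (a, pt x (d.1 k) a) (Finset.mem_image.2 ⟨a, ha, rfl⟩)
      · exfalso
        obtain ⟨d, hd, hdr⟩ := hclosed r (by
          intro k q hq
          obtain ⟨w, ⟨d, hd, rfl⟩, k', q', hq', hqq⟩ := hr k q hq
          refine mem_iUnion₂.2 ⟨d, hd, ?_⟩
          simp only [cond, Finset.mem_image] at hq'
          obtain ⟨a, ha, rfl⟩ := hq'
          rw [← hqq]
          exact ha) ⟨s, hsat⟩
        exact hinc (cond d) ⟨d, hd, rfl⟩ (fun k => ⟨pt x (d.1 k), hdr k, hcondsat d k⟩)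
    -- tuples with a given first entry
    have hsmall : ∀ η : I, ∃ J : Set ι, J.Countable ∧ ∀ s ∈ T, s 0 = η → s ∈ ⋃ i ∈ J, U i := by
      intro η
      let T' : Set (Fin m → XX x) := {s' | (Fin.cons (η : XX x) s' : Fin (m + 1) → XX x) ∈ T}
      have hT' : IsLindelof T' := by
        apply ih
        intro s' hs'
        have := hT _ hs'
        intro a b hab
        have h2 := this (Fin.succ_lt_succ_iff.2 hab)
        simpa using h2
      have hcont : Continuous (fun s' : Fin m → XX x =>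
          (Fin.cons (η : XX x) s' : Fin (m + 1) → XX x)) := by
        apply continuous_pi
        intro k
        refine Fin.cases ?_ ?_ k
        · simpa using continuous_const
        · intro j
          simpa using continuous_apply j
      have hL := hT'.image hcont
      obtain ⟨J, hJ1, hJ2⟩ := hL.elim_countable_subcover U hU (by
        rintro _ ⟨s', hs', rfl⟩
        exact hcov hs')
      refine ⟨J, hJ1, fun s hs h0 => hJ2 ⟨Fin.tail s, ?_, ?_⟩⟩
      · show (Fin.cons (η : XX x) (Fin.tail s) : Fin (m + 1) → XX x) ∈ T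
        rw [← h0, Fin.cons_self_tail]
        exact hs
      · show (Fin.cons (η : XX x) (Fin.tail s) : Fin (m + 1) → XX x) = s
        rw [← h0, Fin.cons_self_tail]
    choose J hJ1 hJ2 using hsmall
    refine ⟨(idx '' D) ∪ ⋃ η ∈ Iic g, J η, (hD.image _).union
      ((hI g).biUnion fun η _ => hJ1 η), fun s hs => ?_⟩
    by_cases hsg : g ≤ (s 0 : I)
    · have hall : ∀ k, g ≤ (s k : I) := fun k => hsg.trans ((hT s hs).monotone (Fin.zero_le k))
      obtain ⟨d, hd, hsd⟩ := hlarge ⟨s, hs⟩ hall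
      exact mem_iUnion₂.2 ⟨idx d, Or.inl ⟨d, hd, rfl⟩, hsd⟩
    · have := hJ2 (s 0) s hs rfl
      obtain ⟨i, hi, hsi⟩ := mem_iUnion₂.1 this
      exact mem_iUnion₂.2 ⟨i, Or.inr (mem_iUnion₂.2 ⟨s 0, (not_le.1 hsg).le, hi⟩), hsi⟩

/-- All finite powers are hereditarily Lindelöf. -/
lemma hereditarilyLindelof (n : ℕ) : HereditarilyLindelofSpace (Fin n → XX x) := by
  classical
  refine ⟨fun T _ => ?_⟩
  have hdec : ∀ s : Fin n → XX x, ∃ (m : ℕ) (t : Fin m → XX x) (p : Fin n → Fin m),
      StrictMono t ∧ s = t ∘ p := by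
    intro s
    let S : Finset (XX x) := Finset.univ.image s
    have hmem : ∀ i, ∃ k, S.orderEmbOfFin rfl k = s i := by
      intro i
      have : s i ∈ Set.range (S.orderEmbOfFin rfl) := by
        rw [Finset.range_orderEmbOfFin]
        exact Finset.mem_coe.2 (Finset.mem_image_of_mem s (Finset.mem_univ i))
      exact this
    choose p hp using hmem
    exact ⟨S.card, S.orderEmbOfFin rfl, p, (S.orderEmbOfFin rfl).strictMono,
      funext fun i => (hp i).symm⟩
  have hT : T = ⋃ z : Σ m : ℕ, (Fin n → Fin m),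
      (fun t : Fin z.1 → XX x => t ∘ z.2) '' {t | StrictMono t ∧ t ∘ z.2 ∈ T} := by
    ext s
    constructor
    · intro hs
      obtain ⟨m, t, p, ht, rfl⟩ := hdec s
      exact mem_iUnion.2 ⟨⟨m, p⟩, t, ⟨ht, hs⟩, rfl⟩
    · intro hs
      obtain ⟨z, t, ⟨_, ht⟩, rfl⟩ := mem_iUnion.1 hs
      exact ht
  rw [hT]
  apply isLindelof_iUnion
  intro z
  apply IsLindelof.image
  · exact isLindelof_strictMono hI hunc hcode hx z.1 _ (fun t ht => ht.1)
  · exact continuous_pi fun i => continuous_apply (z.2 i)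

end main

end Pool.Agent.W_MP_c26d8e_gt
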